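import Pool.Agent.Y998.CN.Fin
import Pool.Agent.Y998.CN.Tor
import Pool.Agent.Y259.CN.CG
import Pool.Agent.Y375.CN.EN
import Pool.Agent.Y950.CN.PATH
import Pool.Agent.Y664.CN.TR
import Pool.Agent.Y154.CN.PR
import Pool.Agent.Y641.CN.PB

/-!
# The number of cycles of random stirring on the torus, for every weight per cycle

Source: project CN of the starting library (`Pool.Agent.Y998.CN` and its parts), never handed in;
the exponential tail and the statement uniform in the length of the short cycles are added here.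
-/

set_option autoImplicit false

namespace Pool.Agent.Results.MP_6c3d62_pr.NumberOfCycles

open Finset Equiv Filter Topology

/-- The sum over all unordered pairs of the rates. -/
noncomputable def totalRate {V : Type} [Fintype V] (J : V → V → ℝ) : ℝ := ∑ x, ∑ y, J x y / 2

/-- The probability that random stirring started at the identity, with an independent Poisson clock
of rate `J x y` for every unordered pair `{x, y}` (`J` symmetric; in general `(J x y + J y x) / 2`),
is at the permutation `g` at time `t`: there are `n` rings up to time `t` with probability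
`exp (-R t) (R t)^n / n!`, `R` the total rate, and each ring is a ring of the ordered pair `(x, y)`
with probability `J x y / (2 R)`. -/
noncomputable def stirLaw {V : Type} [Fintype V] [DecidableEq V] (J : V → V → ℝ) (t : ℝ)
    (g : Perm V) : ℝ :=
  ∑' n : ℕ, Real.exp (-(t * totalRate J)) * t ^ n / (n.factorial : ℝ) *
    ∑ w : Fin n → V × V, (∏ i, J (w i).1 (w i).2 / 2) *
      (if (List.ofFn fun i => swap (w i).1 (w i).2).prod = g then 1 else 0)

/-- Length of the cycle of `g` through `v`. -/
noncomputable def cycleLen {V : Type} [Fintype V] (g : Perm V) (v : V) : ℕ :=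
  Nat.card {w : V // g.SameCycle v w}

/-- The number of cycles of `g`, fixed points included. -/
noncomputable def numCycles {V : Type} (g : Perm V) : ℕ :=
  Nat.card (Quotient (Perm.SameCycle.setoid g))

/-- The expectation of `F` under random stirring at time `t` with weight `θ` per cycle, that is,
for the probability measure proportional to `θ ^ (number of cycles)` times the law of stirring;
`θ = 1` is random stirring itself. -/
noncomputable def cycExp {V : Type} [Fintype V] [DecidableEq V] (J : V → V → ℝ) (t θ : ℝ)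
    (F : Perm V → ℝ) : ℝ :=
  (∑ g, stirLaw J t g * θ ^ numCycles g * F g) / ∑ g, stirLaw J t g * θ ^ numCycles g

/-- Rate `1` for every pair of nearest neighbours of the torus `(ℤ / L)^d`, and `0` otherwise. -/
noncomputable def nnRate (d L : ℕ) (x y : Fin d → ZMod L) : ℝ :=
  open Classical in
  if ∃ a, y = Function.update x a (x a + 1) ∨ x = Function.update y a (y a + 1) then 1 else 0

/-- There are fewer than `a` cycles, and for all `K` at most `a K` points lie in cycles with at most
`K` points. -/
def FewCycles {V : Type} [Fintype V] (a : ℝ) (g : Perm V) : Prop :=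
  (numCycles g : ℝ) < a ∧ ∀ K : ℕ, (Nat.card {v : V // cycleLen g v ≤ K} : ℝ) ≤ a * K

/-- `t ^ (-d/2) (log t) ^ (1 + d/2)`. -/
noncomputable def rate (d : ℕ) (t : ℝ) : ℝ :=
  t ^ (-((d : ℝ) / 2)) * (Real.log t) ^ (1 + (d : ℝ) / 2)

open Pool.Agent.Y998.CN in
theorem all_bound (d q : ℕ) (hd : 1 ≤ d) (hq : 1 ≤ q) : ∃ C : ℝ, 0 < C ∧ ∀ (L : ℕ) (V : Type)
    [Fintype V] [DecidableEq V] (φ : V ≃ (Fin d → Fin L)) (J : V → V → ℝ), (∀ x y, 0 ≤ J x y) →
    (∀ v w k, co φ w = Function.update (co φ v) k (co φ v k + 1) → 1 ≤ J v w) →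
    ∀ t : ℝ, 2 ≤ t → t ≤ (L : ℝ) ^ 2 → WW J t q ≤ Real.exp (C * (L : ℝ) ^ d * rho d t) := by
  obtain ⟨C, hC, h⟩ := main_bound Pool.Agent.Y641.CN.t_PB Pool.Agent.Y154.CN.t_PR
    Pool.Agent.Y950.CN.t_PATH (Pool.Agent.Y259.CN.t_CG Pool.Agent.Y375.CN.EN.t_EN) d q hd hq
  refine ⟨C, hC, fun L V _ _ φ J hJ0 hJ t ht htL => ?_⟩
  have h1 := h L V φ J hJ0 hJ t ht htL
  have h2 := Pool.Agent.Y664.CN.t_TR V J q t
  unfold WW
  rw [h2]
  exact h1

/-- Random stirring on the torus of side `L` in any dimension `d ≥ 1` with arbitrary rates that are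
at least `1` for nearest neighbours, with any weight `θ > 0` per cycle (`θ = 1` is random stirring,
`θ = 2` gives the spin `1/2` Heisenberg ferromagnet), at a time `2 ≤ t ≤ L²`. With a constant `C`
which depends only on `d` and `θ`, and `rate d t = t ^ (-d/2) (log t) ^ (1 + d/2)`:

* the mean number of cycles is at most `C L ^ d rate d t`;
* with probability at least `1 - exp (C L ^ d rate d t - a)`, for every real `a`, there are fewer
  than `a` cycles, and for all `K` simultaneously at most `a K` points lie in cycles with at most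
  `K` points;
* if the rates are translation invariant, then the cycle of a given point has at most `K` points
  with probability at most `C K rate d t`, for all `K`.

Conversely, for nearest neighbour random stirring (`θ = 1`) the mean number of cycles is at least
`(exp (-10) / 2) ^ d L ^ d t ^ (-d/2)` at these times. -/
theorem result (d : ℕ) (hd : 1 ≤ d) :
    (∀ θ : ℝ, 0 < θ → ∃ C : ℝ, 0 < C ∧ ∀ (L : ℕ) [NeZero L]
      (J : (Fin d → ZMod L) → (Fin d → ZMod L) → ℝ), (∀ x y, nnRate d L x y ≤ J x y) →
      ∀ t : ℝ, 2 ≤ t → t ≤ (L : ℝ) ^ 2 →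
        cycExp J t θ (fun g => (numCycles g : ℝ)) ≤ C * (L : ℝ) ^ d * rate d t ∧
        (∀ a : ℝ, 1 - Real.exp (C * (L : ℝ) ^ d * rate d t - a) ≤ cycExp J t θ (fun g =>
          open Classical in if FewCycles a g then 1 else 0)) ∧
        ((∀ x y z, J (x + z) (y + z) = J x y) → ∀ (v : Fin d → ZMod L) (K : ℕ),
          cycExp J t θ (fun g => if cycleLen g v ≤ K then 1 else 0) ≤ C * (K * rate d t))) ∧
    (∀ (L : ℕ) [NeZero L], 3 ≤ L → ∀ t : ℝ, 2 ≤ t → t ≤ (L : ℝ) ^ 2 →
      (Real.exp (-10) / 2) ^ d * (L : ℝ) ^ d * t ^ (-((d : ℝ) / 2)) ≤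
        cycExp (nnRate d L) t 1 (fun g => (numCycles g : ℝ))) := by
  classical
  refine ⟨?_, ?_⟩
  · intro θ hθ
    obtain ⟨C0, hC0, hcb⟩ := Pool.Agent.Y998.CN.cycles_bound Pool.Agent.Y664.CN.t_TR
      Pool.Agent.Y641.CN.t_PB Pool.Agent.Y154.CN.t_PR Pool.Agent.Y950.CN.t_PATH
      (Pool.Agent.Y259.CN.t_CG Pool.Agent.Y375.CN.EN.t_EN) d hd θ hθ
    obtain ⟨C1, hC1, hc1⟩ := Pool.Agent.Y998.CN.cycles_bound Pool.Agent.Y664.CN.t_TR
      Pool.Agent.Y641.CN.t_PB Pool.Agent.Y154.CN.t_PR Pool.Agent.Y950.CN.t_PATH
      (Pool.Agent.Y259.CN.t_CG Pool.Agent.Y375.CN.EN.t_EN) d hd 1 one_pos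
    obtain ⟨q, hq⟩ : ∃ q : ℕ, q = ⌈θ * Real.exp 1⌉₊ + 1 := ⟨_, rfl⟩
    have hq1 : 1 ≤ q := by omega
    have hqθ : θ * Real.exp 1 ≤ q := by
      rw [hq]
      have := Nat.le_ceil (θ * Real.exp 1)
      push_cast
      linarith
    obtain ⟨C2, hC2, hc2⟩ := all_bound d q hd hq1
    refine ⟨C0 + C1 * |Real.log θ| + C2, by positivity, ?_⟩
    intro L _ J hJ t ht htL
    have ht0 : 0 ≤ t := by linarith
    have hJ0 : ∀ x y, 0 ≤ J x y := by
      intro x y
      refine le_trans ?_ (hJ x y)
      unfold nnRate
      split_ifs <;> norm_num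
    have hJ1 : ∀ v w k, Pool.Agent.Y998.CN.co (Pool.Agent.Y998.CN.phi d L) w =
        Function.update (Pool.Agent.Y998.CN.co (Pool.Agent.Y998.CN.phi d L) v) k
          (Pool.Agent.Y998.CN.co (Pool.Agent.Y998.CN.phi d L) v k + 1) → 1 ≤ J v w := fun v w k h =>
      (Pool.Agent.Y998.CN.nn_adj v w k h).trans (hJ v w)
    have hρ : 0 < rate d t := Pool.Agent.Y998.CN.rho_pos d ht
    have hLd : (0 : ℝ) ≤ (L : ℝ) ^ d := by positivity
    have hM : 0 ≤ (L : ℝ) ^ d * rate d t := by positivity
    have hcard : Fintype.card (Fin d → ZMod L) = L ^ d := by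
      rw [Fintype.card_fun, ZMod.card, Fintype.card_fin]
    obtain ⟨C, hC⟩ : ∃ C, C = C0 + C1 * |Real.log θ| + C2 := ⟨_, rfl⟩
    have hCC0 : C0 ≤ C := by rw [hC]; have : 0 ≤ C1 * |Real.log θ| := by positivity
                             linarith
    rw [← hC]
    have hW := Pool.Agent.Y998.CN.WW_pos hJ0 ht0 hθ
    have hlaw : ∀ g, 0 ≤ stirLaw J t g := fun g => Pool.Agent.Y998.ST.law_nonneg hJ0 ht0 g
    have hterm : ∀ g, 0 ≤ stirLaw J t g * θ ^ numCycles g := fun g =>
      mul_nonneg (hlaw g) (by positivity)
    have hWdef : Pool.Agent.Y998.CN.WW J t θ = ∑ g, stirLaw J t g * θ ^ numCycles g := rfl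
    have hNdef : Pool.Agent.Y998.CN.WN J t θ =
      ∑ g, stirLaw J t g * θ ^ numCycles g * (numCycles g : ℝ) := rfl
    -- the mean number of cycles
    have h1 : cycExp J t θ (fun g => (numCycles g : ℝ)) ≤ C0 * ((L : ℝ) ^ d * rate d t) := by
      have h := hcb L (Fin d → ZMod L) (Pool.Agent.Y998.CN.phi d L) J hJ0 hJ1 t ht htL
      unfold cycExp
      rw [← hWdef, ← hNdef, div_le_iff₀ hW]
      refine h.trans (le_of_eq ?_)
      change C0 * (L : ℝ) ^ d * rate d t * Pool.Agent.Y998.CN.WW J t θ = _
      ring
    have h1C : C0 * ((L : ℝ) ^ d * rate d t) ≤ C * (L : ℝ) ^ d * rate d t := by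
      have := mul_le_mul_of_nonneg_right hCC0 hM
      linarith
    refine ⟨h1.trans h1C, ?_, ?_⟩
    · -- the exponential tail
      intro a
      have hup : Pool.Agent.Y998.CN.WW J t (θ * Real.exp 1) ≤
          Real.exp (C2 * (L : ℝ) ^ d * rate d t) := by
        refine le_trans ?_ (hc2 L (Fin d → ZMod L) (Pool.Agent.Y998.CN.phi d L) J hJ0 hJ1 t ht htL)
        unfold Pool.Agent.Y998.CN.WW
        refine Finset.sum_le_sum fun g _ => mul_le_mul_of_nonneg_left ?_ (hlaw g)
        exact pow_le_pow_left₀ (by positivity) hqθ _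
      have hlow : Real.exp (-(C1 * |Real.log θ| * ((L : ℝ) ^ d * rate d t))) ≤
          Pool.Agent.Y998.CN.WW J t θ := by
        rw [← Real.le_log_iff_exp_le hW]
        refine le_trans ?_ (Pool.Agent.Y998.CN.jensen_law hJ0 ht0 hθ)
        have h := hc1 L (Fin d → ZMod L) (Pool.Agent.Y998.CN.phi d L) J hJ0 hJ1 t ht htL
        have hW1 : Pool.Agent.Y998.CN.WW J t 1 = 1 := by
          unfold Pool.Agent.Y998.CN.WW
          simp only [one_pow, mul_one]
          exact Pool.Agent.Y998.CN.law_sum J t
        rw [hW1, mul_one] at h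
        change _ ≤ C1 * (L : ℝ) ^ d * rate d t at h
        have hN1 := Pool.Agent.Y998.CN.WN_nonneg hJ0 ht0 (θ := 1) one_pos
        have h3 : -(Pool.Agent.Y998.CN.WN J t 1 * |Real.log θ|) ≤
            Pool.Agent.Y998.CN.WN J t 1 * Real.log θ := by
          have := neg_abs_le (Real.log θ)
          nlinarith
        refine le_trans ?_ h3
        have h4 := mul_le_mul_of_nonneg_right h (abs_nonneg (Real.log θ))
        linarith
      have hbad : ∑ g, stirLaw J t g * θ ^ numCycles g *
          (if FewCycles a g then (0 : ℝ) else 1) ≤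
          Real.exp (-a) * Pool.Agent.Y998.CN.WW J t (θ * Real.exp 1) := by
        unfold Pool.Agent.Y998.CN.WW
        rw [Finset.mul_sum]
        refine Finset.sum_le_sum fun g _ => ?_
        have e1 : Real.exp (-a) * (Pool.Agent.Y998.ST.stirLaw J t g *
            (θ * Real.exp 1) ^ Pool.Agent.Y998.CN.numCycles g) =
            stirLaw J t g * θ ^ numCycles g * Real.exp (numCycles g - a) := by
          have e2 : Real.exp ((numCycles g : ℝ) - a) =
              Real.exp 1 ^ numCycles g * Real.exp (-a) := by
            rw [← Real.exp_nat_mul, ← Real.exp_add]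
            congr 1
            ring
          rw [e2, mul_pow]
          change Real.exp (-a) * (stirLaw J t g * (θ ^ numCycles g * Real.exp 1 ^ numCycles g)) = _
          ring
        rw [e1]
        refine mul_le_mul_of_nonneg_left ?_ (hterm g)
        split_ifs with hg
        · exact (Real.exp_pos _).le
        · have hge : a ≤ numCycles g := by
            by_contra hcon
            push Not at hcon
            apply hg
            refine ⟨hcon, fun K => ?_⟩
            have h5 := Pool.Agent.Y998.CN.short_le g K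
            refine h5.trans ?_
            rw [mul_comm]
            exact mul_le_mul_of_nonneg_right hcon.le (Nat.cast_nonneg K)
          exact Real.one_le_exp (by linarith)
      have hsplit : cycExp J t θ (fun g => if FewCycles a g then (1 : ℝ) else 0) = 1 - (∑ g, stirLaw J t g * θ ^ numCycles g *
          (if FewCycles a g then (0 : ℝ) else 1)) /
            Pool.Agent.Y998.CN.WW J t θ := by
        unfold cycExp
        rw [← hWdef, eq_sub_iff_add_eq, ← add_div, ← Finset.sum_add_distrib,
          div_eq_one_iff_eq hW.ne', hWdef]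
        refine Finset.sum_congr rfl fun g _ => ?_
        by_cases hg : FewCycles a g
        · simp only [if_pos hg]
          ring
        · simp only [if_neg hg]
          ring
      rw [hsplit]
      have h6 : (∑ g, stirLaw J t g * θ ^ numCycles g *
          (if FewCycles a g then (0 : ℝ) else 1)) /
            Pool.Agent.Y998.CN.WW J t θ ≤ Real.exp (C * (L : ℝ) ^ d * rate d t - a) := by
        rw [div_le_iff₀ hW]
        refine hbad.trans ?_
        have h7 : Real.exp (-a) * Pool.Agent.Y998.CN.WW J t (θ * Real.exp 1) ≤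
            Real.exp (-a) * Real.exp (C2 * (L : ℝ) ^ d * rate d t) :=
          mul_le_mul_of_nonneg_left hup (Real.exp_pos _).le
        refine h7.trans ?_
        have h8 : Real.exp (-a) * Real.exp (C2 * (L : ℝ) ^ d * rate d t) ≤
            Real.exp (C * (L : ℝ) ^ d * rate d t - a) *
              Real.exp (-(C1 * |Real.log θ| * ((L : ℝ) ^ d * rate d t))) := by
          rw [← Real.exp_add, ← Real.exp_add]
          refine Real.exp_le_exp.2 ?_
          rw [hC]
          have : 0 ≤ C0 * ((L : ℝ) ^ d * rate d t) := by positivity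
          nlinarith
        exact h8.trans (mul_le_mul_of_nonneg_left hlow (Real.exp_pos _).le)
      linarith
    · -- the cycle of a point
      intro htr v K
      have h9 := Pool.Agent.Y998.CN.all_alike (J := J)
        (fun v w => Pool.Agent.Y998.CN.trans_torus J htr v w) t θ K v
      have h10 : (Fintype.card (Fin d → ZMod L) : ℝ) *
          cycExp J t θ (fun g => if cycleLen g v ≤ K then 1 else 0) ≤
          K * cycExp J t θ (fun g => (numCycles g : ℝ)) := by
        unfold cycExp
        rw [mul_div_assoc', mul_div_assoc']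
        refine div_le_div_of_nonneg_right ?_ (by rw [← hWdef]; exact hW.le)
        change (Fintype.card (Fin d → ZMod L) : ℝ) * ∑ g, Pool.Agent.Y998.ST.stirLaw J t g *
          θ ^ Pool.Agent.Y998.CN.numCycles g *
          (if Pool.Agent.Y998.ST.cycleLen g v ≤ K then 1 else 0) ≤ _
        rw [h9, Finset.mul_sum]
        refine Finset.sum_le_sum fun g _ => ?_
        have h11 := mul_le_mul_of_nonneg_left (Pool.Agent.Y998.CN.short_le g K) (hterm g)
        refine h11.trans (le_of_eq ?_)
        change stirLaw J t g * θ ^ numCycles g * (K * (numCycles g : ℝ)) = _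
        ring
      rw [hcard] at h10
      push_cast at h10
      have hLpos : (0 : ℝ) < (L : ℝ) ^ d := by
        have : (0 : ℝ) < L := by exact_mod_cast Nat.pos_of_ne_zero (NeZero.ne L)
        positivity
      have h12 : (L : ℝ) ^ d * cycExp J t θ (fun g => if cycleLen g v ≤ K then 1 else 0) ≤
          (L : ℝ) ^ d * (C * (K * rate d t)) := by
        refine h10.trans ?_
        have h13 := mul_le_mul_of_nonneg_left (h1.trans h1C) (Nat.cast_nonneg (α := ℝ) K)
        refine h13.trans (le_of_eq ?_)
        ring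
      exact le_of_mul_le_mul_left h12 hLpos
  · intro L _ hL t ht htL
    have h1 := Pool.Agent.Y998.CN.num_ge (d := d) hL ht htL
    have h2 : cycExp (nnRate d L) t 1 (fun g => (numCycles g : ℝ)) =
        Pool.Agent.Y998.ST.stirExp (Pool.Agent.Y998.ST.nnRate d L) t
          (fun g => (Pool.Agent.Y998.CN.numCycles g : ℝ)) := by
      unfold cycExp
      simp only [one_pow, mul_one]
      have h3 : ∑ g, stirLaw (nnRate d L) t g = 1 :=
        Pool.Agent.Y998.CN.law_sum (Pool.Agent.Y998.ST.nnRate d L) t
      rw [h3, div_one]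
      rfl
    rw [h2]
    exact h1

end Pool.Agent.Results.MP_6c3d62_pr.NumberOfCycles
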